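import Pool.Agent.Q302.HQ.Group

/-! # A path of homeomorphisms of the Hilbert cube -/

set_option autoImplicit false

open Topology Set unitInterval

namespace Pool.Agent.Q302.HQ

/-- clamp -/
noncomputable def cl (s : ℝ) : ℝ := max 0 (min s 1)

theorem cl_nonneg (s : ℝ) : 0 ≤ cl s := le_max_left _ _
theorem cl_le (s : ℝ) : cl s ≤ 1 := max_le zero_le_one (min_le_right _ _)
theorem cl_zero : cl 0 = 0 := by unfold cl; norm_num
theorem cl_one : cl 1 = 1 := by unfold cl; norm_num
theorem continuous_cl : Continuous cl := by unfold cl; fun_prop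

/-- the homeomorphism of the unit interval -/
noncomputable def w (s : ℝ) (u : I) : I :=
  ⟨(1 - cl s) * u + cl s * u ^ 2, by
    have h1 := cl_nonneg s
    have h2 := cl_le s
    have h3 := u.2.1
    have h4 := u.2.2
    constructor
    · have := mul_nonneg (sub_nonneg.2 h2) h3
      have := mul_nonneg h1 (sq_nonneg (u : ℝ))
      linarith
    · nlinarith [mul_nonneg h1 (mul_nonneg h3 (sub_nonneg.2 h4))]⟩

theorem w_coe (s : ℝ) (u : I) : (w s u : ℝ) = (1 - cl s) * u + cl s * u ^ 2 := rfl

theorem w_zero (u : I) : w 0 u = u := by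
  apply Subtype.ext
  rw [w_coe, cl_zero]
  ring

theorem continuous_w : Continuous (fun p : ℝ × I => w p.1 p.2) := by
  apply Continuous.subtype_mk
  have h1 : Continuous fun p : ℝ × I => cl p.1 := continuous_cl.comp continuous_fst
  have h2 : Continuous fun p : ℝ × I => (p.2 : ℝ) := continuous_subtype_val.comp continuous_snd
  exact ((continuous_const.sub h1).mul h2).add (h1.mul (h2.pow 2))

theorem w_strictMono (s : ℝ) : StrictMono (w s) := by
  intro u v huv
  have huv' : (u : ℝ) < v := huv
  show (w s u : ℝ) < w s v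
  rw [w_coe, w_coe]
  have h1 := cl_nonneg s
  have h2 := cl_le s
  have h3 := u.2.1
  have h4 : 0 < (1 - cl s) + cl s * ((u : ℝ) + v) := by
    rcases h2.lt_or_eq with h | h
    · have := mul_nonneg h1 (add_nonneg h3 (h3.trans huv'.le))
      linarith
    · rw [h]; linarith
  nlinarith [mul_pos (sub_pos.2 huv') h4]

theorem w_bijective (s : ℝ) : Function.Bijective (w s) := by
  refine ⟨(w_strictMono s).injective, ?_⟩
  have hc : Continuous (w s) := continuous_w.comp (continuous_const.prodMk continuous_id)
  intro c
  apply mem_range_of_exists_le_of_exists_ge hc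
  · refine ⟨0, ?_⟩
    have : w s 0 = 0 := by
      apply Subtype.ext
      rw [w_coe]
      simp
    rw [this]
    exact c.2.1
  · refine ⟨1, ?_⟩
    have : w s 1 = 1 := by
      apply Subtype.ext
      rw [w_coe]
      simp
    rw [this]
    exact c.2.2

/-- the Hilbert cube -/
abbrev Q : Type := ℕ → I

/-- the homeomorphisms of the cube -/
noncomputable def W : C(ℝ × Q, Q) where
  toFun p := Function.update p.2 0 (w p.1 (p.2 0))
  continuous_toFun := by
    apply continuous_snd.update
    exact continuous_w.comp (continuous_fst.prodMk ((continuous_apply 0).comp continuous_snd))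

theorem W_bijective (s : ℝ) : Function.Bijective (fun x : Q => W (s, x)) := by
  have happ0 : ∀ x : Q, W (s, x) 0 = w s (x 0) := fun x => by
    show Function.update x 0 (w s (x 0)) 0 = _
    simp
  have happ : ∀ (x : Q) (i : ℕ), i ≠ 0 → W (s, x) i = x i := fun x i hi => by
    show Function.update x 0 (w s (x 0)) i = _
    rw [Function.update_of_ne hi]
  constructor
  · intro x y h
    have h' : ∀ i, W (s, x) i = W (s, y) i := fun i => congrFun h i
    funext i
    by_cases hi : i = 0
    · subst hi
      have := h' 0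
      rw [happ0, happ0] at this
      exact (w_bijective s).1 this
    · have := h' i
      rwa [happ _ _ hi, happ _ _ hi] at this
  · intro y
    obtain ⟨u, hu⟩ := (w_bijective s).2 (y 0)
    refine ⟨Function.update y 0 u, ?_⟩
    funext i
    show W (s, Function.update y 0 u) i = y i
    by_cases hi : i = 0
    · subst hi
      rw [happ0]
      simp [hu]
    · rw [happ _ _ hi, Function.update_of_ne hi]

/-- the path -/
noncomputable def γ (s : ℝ) : Hom Q := ⟨W.curry s, W_bijective s⟩

theorem continuous_γ : Continuous γ := W.curry.continuous.subtype_mk _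

theorem γ_zero : γ 0 = 1 := by
  apply Subtype.ext
  apply ContinuousMap.ext
  intro x
  show Function.update x 0 (w 0 (x 0)) = x
  rw [w_zero, Function.update_eq_self]

/-- the centre -/
noncomputable def ctr : Q := fun _ => ⟨1 / 2, by norm_num, by norm_num⟩

theorem γ_one : γ 1 ≠ 1 := by
  intro h
  have h1 : (γ 1).1 ctr = (1 : Hom Q).1 ctr := by rw [h]
  have h2 : (((γ 1).1 ctr) 0 : ℝ) = 1 / 2 := by rw [h1]; rfl
  have h3 : ((γ 1).1 ctr) 0 = w 1 (ctr 0) := by
    show (Function.update ctr 0 (w 1 (ctr 0)) : Q) 0 = w 1 (ctr 0)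
    simp
  rw [h3, w_coe, cl_one] at h2
  have h4 : ((ctr 0 : I) : ℝ) = 1 / 2 := rfl
  rw [h4] at h2
  norm_num at h2

end Pool.Agent.Q302.HQ
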