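import Mathlib
import Pool.Agent.H44D.Stmts
import Pool.Agent.H44D.Final
import Pool.Agent.H44D.B
import Pool.Agent.H44D.A
import Pool.Agent.H722R5.H44D_C1
import Pool.Agent.H886R3.TaskH44DC2
import Pool.Agent.H44D.C3

/-!
# The homeomorphism group of a compact metrizable space, as a set of continuous maps

The group of all homeomorphisms of a compact metrizable space (bijective continuous self-maps with
the compact-open topology) is Polish, and it is the union of a meagre set and a Haar null set as
soon as some homeomorphism different from the identity is joined to it by a path.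
-/

set_option autoImplicit false

open Topology Set

namespace Pool.Agent.Q302.HQ

variable {X : Type} [TopologicalSpace X] [CompactSpace X] [T2Space X]

/-- homeomorphisms -/
def Hom (X : Type) [TopologicalSpace X] : Set C(X, X) := {f | Function.Bijective f}

/-- the homeomorphism -/
noncomputable def homeo (f : Hom X) : X ≃ₜ X :=
  Continuous.homeoOfEquivCompactToT2 (f := Equiv.ofBijective f.1 f.2) f.1.continuous

theorem homeo_apply (f : Hom X) (x : X) : homeo f x = f.1 x := rfl

/-- the inverse as a continuous map -/
noncomputable def inv (f : Hom X) : C(X, X) := ⟨(homeo f).symm, (homeo f).symm.continuous⟩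

theorem inv_left (f : Hom X) (x : X) : inv f (f.1 x) = x := (homeo f).symm_apply_apply x
theorem inv_right (f : Hom X) (x : X) : f.1 (inv f x) = x := (homeo f).apply_symm_apply x

noncomputable instance instGroup : Group (Hom X) where
  mul f g := ⟨f.1.comp g.1, f.2.comp g.2⟩
  one := ⟨ContinuousMap.id X, Function.bijective_id⟩
  inv f := ⟨inv f, (homeo f).symm.bijective⟩
  mul_assoc f g h := rfl
  one_mul f := rfl
  mul_one f := rfl
  inv_mul_cancel f := by
    apply Subtype.ext
    apply ContinuousMap.ext
    intro x
    exact inv_left f x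

theorem mul_val (f g : Hom X) : (f * g).1 = f.1.comp g.1 := rfl
theorem one_val : (1 : Hom X).1 = ContinuousMap.id X := rfl
theorem inv_val (f : Hom X) : (f⁻¹).1 = inv f := rfl

theorem continuous_inv' : Continuous (fun f : Hom X => inv f) := by
  rw [ContinuousMap.continuous_compactOpen]
  intro K hK U hU
  have h : {f : Hom X | MapsTo (inv f) K U} = {f : Hom X | MapsTo f.1 Uᶜ Kᶜ} := by
    ext f
    constructor
    · intro h x hx hk
      apply hx
      have := h hk
      rwa [inv_left] at this
    · intro h x hx
      by_contra hc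
      exact h hc (by rw [inv_right]; exact hx)
  rw [h]
  have h1 : IsOpen {g : C(X, X) | MapsTo g Uᶜ Kᶜ} :=
    ContinuousMap.isOpen_setOfPred_mapsTo hU.isClosed_compl.isCompact hK.isClosed.isOpen_compl
  exact h1.preimage continuous_subtype_val

instance instTG : IsTopologicalGroup (Hom X) where
  continuous_mul := by
    apply Continuous.subtype_mk
    exact ContinuousMap.continuous_comp'.comp
      ((continuous_subtype_val.comp continuous_snd).prodMk
        (continuous_subtype_val.comp continuous_fst))
  continuous_inv := by
    apply Continuous.subtype_mk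
    exact continuous_inv'

theorem polish_C [SecondCountableTopology X] : PolishSpace C(X, X) := by
  let _ := TopologicalSpace.metrizableSpaceMetric X
  have : PolishSpace X := inferInstance
  infer_instance

instance instPolish [SecondCountableTopology X] : PolishSpace (Hom X) := by
  have := polish_C (X := X)
  have hcl : IsClosed {p : C(X, X) × C(X, X) | p.1.comp p.2 = ContinuousMap.id X ∧
      p.2.comp p.1 = ContinuousMap.id X} := by
    have h1 : Continuous (fun p : C(X, X) × C(X, X) => p.1.comp p.2) :=
      ContinuousMap.continuous_comp' |>.comp (continuous_snd.prodMk continuous_fst)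
    have h2 : Continuous (fun p : C(X, X) × C(X, X) => p.2.comp p.1) :=
      ContinuousMap.continuous_comp' |>.comp (continuous_fst.prodMk continuous_snd)
    exact (isClosed_eq h1 continuous_const).inter (isClosed_eq h2 continuous_const)
  let e : Hom X → C(X, X) × C(X, X) := fun f => (f.1, inv f)
  have he : Continuous e := continuous_subtype_val.prodMk continuous_inv'
  have hemb : Topology.IsEmbedding e := by
    apply Topology.IsEmbedding.of_comp he continuous_fst
    exact Topology.IsEmbedding.subtypeVal
  have hrange : Set.range e = {p : C(X, X) × C(X, X) | p.1.comp p.2 = ContinuousMap.id X ∧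
      p.2.comp p.1 = ContinuousMap.id X} := by
    ext p
    constructor
    · rintro ⟨f, rfl⟩
      constructor
      · ext x; exact inv_right f x
      · ext x; exact inv_left f x
    · rintro ⟨h1, h2⟩
      have h1' : ∀ x, p.1 (p.2 x) = x := fun x => DFunLike.congr_fun h1 x
      have h2' : ∀ x, p.2 (p.1 x) = x := fun x => DFunLike.congr_fun h2 x
      refine ⟨⟨p.1, ⟨Function.LeftInverse.injective h2', Function.RightInverse.surjective h1'⟩⟩, ?_⟩
      apply Prod.ext
      · rfl
      · ext x
        apply (show Function.Injective p.1 from Function.LeftInverse.injective h2')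
        rw [h1']
        exact inv_right (⟨p.1, ⟨Function.LeftInverse.injective h2',
          Function.RightInverse.surjective h1'⟩⟩ : Hom X) x
  have : Topology.IsClosedEmbedding e := ⟨hemb, by rw [hrange]; exact hcl⟩
  exact this.polishSpace

/-- The decomposition. -/
theorem decompose [SecondCountableTopology X] (γ : ℝ → Hom X) (hγ : Continuous γ)
    (h0 : γ 0 = 1) (h1 : γ 1 ≠ 1) :
    ∃ A M : Set (Hom X), A ∪ M = Set.univ ∧ Disjoint A M ∧ IsMeagre M ∧
      ∃ B : Set (Hom X), A ⊆ B ∧ @MeasurableSet (Hom X) (borel (Hom X)) B ∧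
        ∃ μ : @MeasureTheory.Measure (Hom X) (borel (Hom X)),
          @MeasureTheory.IsProbabilityMeasure (Hom X) (borel (Hom X)) μ ∧
          ∀ g h : Hom X, μ {x : Hom X | ∃ b ∈ B, x.1 = g.1.comp (b.1.comp h.1)} = 0 := by
  let mG : MeasurableSpace (Hom X) := borel (Hom X)
  have bG : BorelSpace (Hom X) := ⟨rfl⟩
  have hU : ∃ U ∈ 𝓝 (1 : Hom X), ∀ H : Subgroup (Hom X), IsOpen (H : Set (Hom X)) →
      ¬ (H : Set (Hom X)) ⊆ U := by
    refine ⟨{γ 1}ᶜ, isOpen_compl_singleton.mem_nhds (fun h => h1 h.symm), ?_⟩
    intro H hH hsub
    have hcl : IsClosed (H : Set (Hom X)) := H.isClosed_of_isOpen hH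
    have hpre : γ ⁻¹' (H : Set (Hom X)) = Set.univ := by
      apply IsClopen.eq_univ ⟨hcl.preimage hγ, hH.preimage hγ⟩
      exact ⟨0, by show γ 0 ∈ H; rw [h0]; exact H.one_mem⟩
    have h2 : (1 : ℝ) ∈ γ ⁻¹' (H : Set (Hom X)) := by rw [hpre]; trivial
    exact hsub h2 rfl
  obtain ⟨M, N, h2, h3, C, hC, hNC, μ, hμ, h4⟩ :=
    H44D.assembly H44D.taskA H44D.taskB H44D.taskC1 Pool.Agent.H886R3.DC2.taskC2 H44D.taskC3
      (Hom X) hU
  refine ⟨N \ M, M, ?_, Set.disjoint_sdiff_left, h3, C, fun x hx => hNC hx.1, hC, μ, hμ, ?_⟩
  · rw [Set.sdiff_union_self, Set.union_comm, h2]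
  · intro g h
    have h5 : {x : Hom X | ∃ b ∈ C, x.1 = g.1.comp (b.1.comp h.1)} = (fun x => g * x * h) '' C := by
      ext x
      constructor
      · rintro ⟨b, hb, hx⟩
        refine ⟨b, hb, ?_⟩
        apply Subtype.ext
        rw [hx]
        rfl
      · rintro ⟨b, hb, rfl⟩
        exact ⟨b, hb, rfl⟩
    rw [h5]
    exact h4 g h

end Pool.Agent.Q302.HQ
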